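import Pool.Agent.Lib.MP_16285c_agS.Fin.Box
import Pool.Agent.Lib.MP_16285c_agS.Can.All
import Pool.Agent.Lib.MP_16285c_agS.Top.All
import Pool.Agent.Lib.MP_16285c_agS.G.Amb
import Pool.Agent.Lib.MP_16285c_agS.G.JacS
import Pool.Agent.Lib.MP_16285c_agS.G.NoInv
import Pool.Agent.Lib.MP_16285c_agS.G.PrimS
import Pool.Agent.Lib.MP_16285c_agS.G.Pts
import Pool.Agent.Lib.MP_16285c_agS.G.Surf

/-!
# Dense orbits on surfaces: the theorem for an arbitrary surface (section G of note 4871)
-/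

set_option autoImplicit false

namespace Pool.Agent.Lib.MP_16285c_agS

/-- The theorem for the model. -/
theorem model : G.StmtModel := by
  intro k _ _ _ P f hP hM hI hN b hb
  exact cModelS bBoxS Cn.tCan k P f hP hM ⟨hI.den, hI.jac, hI.jX, hI.keep⟩ hN b hb

/-- The theorem for surfaces. -/
theorem surf : G.StmtSurf :=
  G.tSurf model G.tPrimS (G.tAmb G.tJacS Box.tHc) (G.tNoInv Box.tHc) G.tPts Box.tHc

end Pool.Agent.Lib.MP_16285c_agS
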