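import Pool.Agent.Lib.MP_16285c_agS.Fin.Hru
import Pool.Agent.Lib.MP_16285c_agS.Top.Defs

/-!
# Dense orbits on surfaces: the box in the format of the assembly
-/

set_option autoImplicit false

namespace Pool.Agent.Lib.MP_16285c_agS

theorem bBoxS : StmtBoxS := by
  intro k _ _ _ P f hP hM hI B hB p₀
  obtain ⟨h1, h2, h3, h4⟩ := hI
  obtain ⟨V, p, a, N, hp, hpp, hch, hN, hr, hroot, horb⟩ := aBoxS k P f hP hM h1 h2 h3 h4 B hB p₀
  refine ⟨V, p, a, N, hp, hpp, hch, hN, hr, fun t ht => ?_, fun x₀ hx₀ hPx => horb x₀ hx₀ hPx⟩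
  obtain ⟨z₀, hz, he⟩ := hroot t (ht 0) (ht 1)
  refine ⟨z₀, hz, ?_⟩
  have h : (Fin.cons z₀ t : Fin 3 → k) = ![z₀, t 0, t 1] := by
    funext i
    fin_cases i <;> rfl
  rw [h]
  exact he

end Pool.Agent.Lib.MP_16285c_agS
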