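import Pool.Agent.Lib.MP_16285c_agZ.Hru.Der
import Pool.Agent.Lib.MP_16285c_agZ.Hru.Prd
import Pool.Agent.Lib.MP_16285c_agZ.Hru.SepH
import Pool.Agent.Lib.MP_16285c_agZ.Hru.Bd
import Pool.Agent.Lib.MP_16285c_agZ.Hru.Loc
import Pool.Agent.Lib.MP_16285c_agZ.Hru.Pn
import Pool.Agent.Lib.MP_16285c_agZ.Hru.Res
import Pool.Agent.Lib.MP_16285c_agZ.Hru.Fld
import Pool.Agent.Lib.MP_16285c_agS.Bez.All
import Pool.Agent.Lib.MP_16285c_agS.Hrx.Coord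
import Pool.Agent.Lib.MP_16285c_agS.Hrx.Curve
import Pool.Agent.Lib.MP_16285c_agS.Hrx.CvD
import Pool.Agent.Lib.MP_16285c_agS.Hrx.CvH
import Pool.Agent.Lib.MP_16285c_agS.Hrx.CvL
import Pool.Agent.Lib.MP_16285c_agS.Hrx.Deg
import Pool.Agent.Lib.MP_16285c_agS.Hrx.Dim
import Pool.Agent.Lib.MP_16285c_agS.Hrx.Dom
import Pool.Agent.Lib.MP_16285c_agS.Hrx.Elim
import Pool.Agent.Lib.MP_16285c_agS.Hrx.Good
import Pool.Agent.Lib.MP_16285c_agS.Hrx.Hrux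
import Pool.Agent.Lib.MP_16285c_agS.Hrx.Main
import Pool.Agent.Lib.MP_16285c_agS.Hrx.Min
import Pool.Agent.Lib.MP_16285c_agS.Hrx.Nrm
import Pool.Agent.Lib.MP_16285c_agS.Hrx.PnMv
import Pool.Agent.Lib.MP_16285c_agS.Hrx.Pt
import Pool.Agent.Lib.MP_16285c_agS.Hrx.Root
import Pool.Agent.Lib.MP_16285c_agS.Hrx.Shear
import Pool.Agent.Lib.MP_16285c_agS.Hrx.Thr
import Pool.Agent.Lib.MP_16285c_agS.Hrx.Univ
import Pool.Agent.Lib.MP_16285c_agS.Box.BoxS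
import Pool.Agent.Lib.MP_16285c_agS.Box.Hc
import Pool.Agent.Lib.MP_16285c_agS.Box.Modp
import Pool.Agent.Lib.MP_16285c_agS.Box.OrbS
import Pool.Agent.Lib.MP_16285c_agS.Box.RootV
import Pool.Agent.Lib.MP_16285c_agS.Box.Stay

/-!
# Dense orbits on surfaces: the boxes (sections A and B of note 4871), without hypotheses
-/

set_option autoImplicit false

namespace Pool.Agent.Lib.MP_16285c_agS

open Pool.Agent.Lib.MP_16285c_agZ.Hru (SDer SPrd SLoc SPn SRes SFld tDer tPrd tSepH tLoc tBd tPn tRes tFld)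

theorem aPrd : SPrd := tPrd tSepH

theorem aLoc : SLoc := tLoc tBd

theorem aCvL : Hrx.StmtCvL := Hrx.tCvL aPrd aLoc

theorem aCvD : Hrx.StmtCvD := Hrx.tCvD aPrd tPn Hrx.tPnMv

theorem aCvH : Hrx.StmtCvH := Hrx.tCvH aPrd tPn Hrx.tPnMv

theorem aUniv : Hrx.StmtUniv := Hrx.tUniv Hrx.tMin Hrx.tDim

theorem aNrm : Hrx.StmtNrm := Hrx.tNrm (Hrx.tRoot aPrd) Hrx.tPnMv

theorem aPt : Hrx.StmtPt := Hrx.tPt Hrx.tPnMv aCvL

theorem aMain : Hrx.StmtMain :=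
  Hrx.tMain aPrd tPn Hrx.tPnMv aCvL aCvD aCvH aUniv aNrm aPt Hrx.tGood

theorem aCurve : Hrx.StmtCurve := Hrx.tCurve tDer aPrd aLoc tPn tRes tFld Hrx.tElim

theorem aDeg : Hrx.StmtDeg := Hrx.tDeg Hrx.tElim

theorem aCoord : Hrx.StmtCoord := Hrx.tCoord Bez.aBert3 Hrx.tShear

/-- Points with `f(a) = a ^ q` on a surface over an algebraically closed field of characteristic `p`. -/
theorem aHrux : Hrx.StmtHrux := Hrx.tHrux tDer Bez.aFib3 Hrx.tElim Hrx.tDom aCurve aDeg aCoord aMain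

theorem aModp : Box.StmtModp := Box.tModp aHrux Hrx.tElim Bez.aBN3 Box.tHc Box.tStay

/-- Boxes on surfaces. -/
theorem aBoxS : Box.StmtBoxS := Box.tBoxS Box.tHc aModp Box.tOrbS Box.tRootV

end Pool.Agent.Lib.MP_16285c_agS
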